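import Pool.Agent.Lib.MP_f8ecd9_al.Graded

set_option autoImplicit false

namespace Pool.Agent.Lib.MP_f8ecd9_al

section GradedSemicontinuity

variable {k : Type*} [Field k] {J M : Type*} [Fintype J] [AddCommGroup M] [Module k M]
  [Module.Finite k M]

/-- If `g` only involves strictly smaller weights, adding it to the weight preserving `f` does
not enlarge the kernel. -/
theorem finrank_ker_add_le' (w : J → ℕ) (f g : (J → M) →ₗ[k] (J → M))
    (hf : ∀ y p, (∀ q, w q = w p → y q = 0) → f y p = 0)
    (hg : ∀ y p, (∀ q, w q < w p → y q = 0) → g y p = 0) :
    Module.finrank k (LinearMap.ker (f + g)) ≤ Module.finrank k (LinearMap.ker f) := by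
  classical
  have key : ∀ m j : ℕ, (∀ p, w p < j + m) →
      Module.finrank k ↥(LinearMap.ker (f + g) ⊓ filt k M w j) ≤
        Module.finrank k ↥(LinearMap.ker f ⊓ filt k M w j) := by
    intro m
    induction m with
    | zero =>
      intro j hj
      have h0 : LinearMap.ker (f + g) ⊓ filt k M w j = ⊥ := by
        rw [eq_bot_iff]
        intro y hy
        rw [Submodule.mem_bot]
        funext p
        exact hy.2 p (by simpa using hj p)
      rw [h0, finrank_bot]
      exact Nat.zero_le _
    | succ m ih =>
      intro j hj
      have ih' := ih (j + 1) (by intro p; have := hj p; omega)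
      set K := LinearMap.ker (f + g) ⊓ filt k M w j with hK
      set K' := LinearMap.ker (f + g) ⊓ filt k M w (j + 1) with hK'
      set G := LinearMap.ker f ⊓ filt k M w j with hG
      set G' := LinearMap.ker f ⊓ filt k M w (j + 1) with hG'
      set φ := (trunc k M w j).domRestrict K with hφ
      have h1 := LinearMap.finrank_range_add_finrank_ker φ
      have h2 : Module.finrank k (LinearMap.ker φ) ≤ Module.finrank k K' := by
        have hmap : ∀ x : LinearMap.ker φ, ((x : K) : J → M) ∈ K' := by
          rintro ⟨⟨y, hy⟩, hx⟩
          refine ⟨hy.1, ?_⟩
          intro p hp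
          rcases Nat.lt_succ_iff_lt_or_eq.mp hp with h | h
          · exact hy.2 p h
          · have := congrFun (LinearMap.mem_ker.mp hx) p
            simpa [hφ, trunc, h] using this
        let ψ : LinearMap.ker φ →ₗ[k] K' :=
          LinearMap.codRestrict K' (K.subtype ∘ₗ (LinearMap.ker φ).subtype) hmap
        refine LinearMap.finrank_le_finrank_of_injective (f := ψ) ?_
        intro a b hab
        have := congrArg Subtype.val hab
        apply Subtype.ext
        apply Subtype.ext
        exact this
      have h3 : LinearMap.range φ ≤ G := by
        rintro _ ⟨⟨y, hy⟩, rfl⟩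
        have hy1 : f y + g y = 0 := by simpa using hy.1
        have hy2 := hy.2
        refine ⟨?_, ?_⟩
        · rw [SetLike.mem_coe, LinearMap.mem_ker]
          funext p
          by_cases hp : w p = j
          · have e1 : f (φ ⟨y, hy⟩ - y) p = 0 := by
              apply hf
              intro q hq
              have : w q = j := by omega
              simp [hφ, trunc, this]
            have e2 : g y p = 0 := by
              apply hg
              intro q hq
              exact hy2 q (by omega)
            have e3 : f y p = 0 := by
              have := congrFun hy1 p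
              simpa [e2] using this
            rw [map_sub, Pi.sub_apply, e3, sub_zero] at e1
            exact e1
          · apply hf
            intro q hq
            have : w q ≠ j := by omega
            simp [hφ, trunc, this]
        · intro p hp
          have : w p ≠ j := by omega
          simp [hφ, trunc, this]
      have h4 : G' ≤ G := by
        intro y hy
        exact ⟨hy.1, fun p hp => hy.2 p (by omega)⟩
      have h5 : LinearMap.range φ ⊓ G' = ⊥ := by
        rw [eq_bot_iff]
        rintro y ⟨⟨⟨z, hz⟩, rfl⟩, hy2⟩
        rw [Submodule.mem_bot]
        funext p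
        by_cases hp : w p = j
        · exact hy2.2 p (by omega)
        · simp [hφ, trunc, hp]
      have h6 := Submodule.finrank_sup_add_finrank_inf_eq (LinearMap.range φ) G'
      rw [h5, finrank_bot, add_zero] at h6
      have h7 : Module.finrank k ↥(LinearMap.range φ ⊔ G') ≤ Module.finrank k G :=
        Submodule.finrank_mono (sup_le h3 h4)
      omega
  obtain ⟨m, hm⟩ : ∃ m, ∀ p, w p < 0 + m := by
    refine ⟨(Finset.univ.sup w) + 1, ?_⟩
    intro p
    have : w p ≤ Finset.univ.sup w := Finset.le_sup (f := w) (Finset.mem_univ p)
    omega
  have h := key m 0 hm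
  have htop : filt k M w 0 = ⊤ := by
    rw [eq_top_iff]
    intro y _ p hp
    omega
  rwa [htop, inf_top_eq, inf_top_eq] at h

end GradedSemicontinuity

end Pool.Agent.Lib.MP_f8ecd9_al
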