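import Pool.Agent.Lib.MP_f8ecd9_al.Main
import Pool.Agent.Lib.MP_f8ecd9_al.Graded2

set_option autoImplicit false

namespace Pool.Agent.Lib.MP_f8ecd9_al

open MvPolynomial

section

variable {k A : Type*} [Field k] [CommRing A] [Algebra k A] [Module.Finite k A]
variable {ι : Type*} [Fintype ι] [DecidableEq ι]

/-- The kernel of `1 ⊗ D` is a sum of copies of the kernel of `D`. -/
theorem finrank_ker_one_kron_le (D : Matrix ι ι A) :
    Module.finrank k (LinearMap.ker ((Matrix.kronecker (1 : Matrix ι ι A)
        D).mulVecLin.restrictScalars k)) ≤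
      Fintype.card ι * Module.finrank k (LinearMap.ker (D.mulVecLin.restrictScalars k)) := by
  have hmv : ∀ (y : ι × ι → A) (i : ι),
      (fun j => (Matrix.kronecker (1 : Matrix ι ι A) D).mulVec y (i, j)) =
        D.mulVec (fun j => y (i, j)) := by
    intro y i
    funext j
    simp only [Matrix.mulVec, dotProduct, Matrix.kronecker, Matrix.kroneckerMap_apply]
    rw [Fintype.sum_prod_type, Finset.sum_eq_single i]
    · simp
    · intro i' _ hi'
      apply Finset.sum_eq_zero
      intro j' _
      rw [Matrix.one_apply_ne (Ne.symm hi')]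
      ring
    · intro h
      exact absurd (Finset.mem_univ _) h
  let φ : LinearMap.ker ((Matrix.kronecker (1 : Matrix ι ι A) D).mulVecLin.restrictScalars k) →ₗ[k]
      (ι → LinearMap.ker (D.mulVecLin.restrictScalars k)) :=
    { toFun := fun y i => ⟨fun j => (y : ι × ι → A) (i, j), by
        rw [LinearMap.mem_ker]
        simp only [LinearMap.restrictScalars_apply, Matrix.mulVecLin_apply]
        rw [← hmv]
        funext j
        have := y.2
        rw [LinearMap.mem_ker] at this
        simp only [LinearMap.restrictScalars_apply, Matrix.mulVecLin_apply] at this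
        rw [this]
        rfl⟩
      map_add' := by intro a b; rfl
      map_smul' := by intro a b; rfl }
  have hφ : Function.Injective φ := by
    intro a b hab
    apply Subtype.ext
    funext p
    have := congrArg Subtype.val (congrFun hab p.1)
    exact congrFun this p.2
  have h := LinearMap.finrank_le_finrank_of_injective hφ
  rw [Module.finrank_pi_fintype] at h
  simpa using h

theorem finrank_ker_bd_le (D : Matrix ι ι A) (deg : ι → ℕ)
    (hdeg : ∀ i j, D i j ≠ 0 → deg j = deg i + 1) :
    Module.finrank k (LinearMap.ker ((bd D).mulVecLin.restrictScalars k)) ≤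
      Fintype.card ι * Module.finrank k (LinearMap.ker (D.mulVecLin.restrictScalars k)) := by
  refine le_trans ?_ (finrank_ker_one_kron_le (k := k) D)
  have e : (bd D).mulVecLin.restrictScalars k =
      (Matrix.kronecker (1 : Matrix ι ι A) D).mulVecLin.restrictScalars k +
        (Matrix.kronecker D (1 : Matrix ι ι A)).mulVecLin.restrictScalars k := by
    apply LinearMap.ext
    intro v
    simp only [LinearMap.restrictScalars_apply, LinearMap.add_apply, Matrix.mulVecLin_apply, bd]
    rw [Matrix.add_mulVec, add_comm]
  rw [e]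
  set B := Finset.univ.sup deg with hB
  have hle : ∀ i, deg i ≤ B := fun i => Finset.le_sup (f := deg) (Finset.mem_univ i)
  apply finrank_ker_add_le' (fun p : ι × ι => B - deg p.1)
  · intro y p hy
    simp only [LinearMap.restrictScalars_apply, Matrix.mulVecLin_apply, Matrix.mulVec, dotProduct,
      Matrix.kronecker, Matrix.kroneckerMap_apply]
    apply Finset.sum_eq_zero
    intro q _
    by_cases h : p.1 = q.1
    · rw [hy q (by simp only [h]), mul_zero]
    · rw [Matrix.one_apply_ne h, zero_mul, zero_mul]
  · intro y p hy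
    simp only [LinearMap.restrictScalars_apply, Matrix.mulVecLin_apply, Matrix.mulVec, dotProduct,
      Matrix.kronecker, Matrix.kroneckerMap_apply]
    apply Finset.sum_eq_zero
    intro q _
    by_cases h : D p.1 q.1 = 0
    · rw [h, zero_mul, zero_mul]
    · have h1 := hdeg _ _ h
      have h2 := hle q.1
      rw [hy q (by omega), mul_zero]

end

section

variable {k : Type*} [Field k] [CharP k 2] {d : ℕ}

/-- Carlsson's rank bound in characteristic two for minimal graded free complexes. -/
theorem carlsson {n : ℕ} (hn : 0 < n)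
    (D : Matrix (Fin n) (Fin n) (MvPolynomial (Fin d) k ⧸ sqIdeal k d))
    (hD : D * D = 0) (hdeg : ∃ deg : Fin n → ℕ, ∀ i j, D i j ≠ 0 → deg j = deg i + 1)
    (hnil : ∀ i j, IsNilpotent (D i j)) :
    2 ^ d + Module.finrank k (LinearMap.range (D.mulVecLin.restrictScalars k)) ≤
      Module.finrank k (LinearMap.ker (D.mulVecLin.restrictScalars k)) := by
  have := finite_quot k d
  obtain ⟨deg, hdeg⟩ := hdeg
  have h1 := (finrank_ker_tate_ge D hD hnil).trans (finrank_ker_bd_ge_tate D deg hdeg)
  have h2 := finrank_ker_bd_le (k := k) D deg hdeg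
  have h3 := LinearMap.finrank_range_add_finrank_ker (D.mulVecLin.restrictScalars k)
  rw [Module.finrank_pi_fintype] at h3
  simp only [finrank_quot, Finset.sum_const, Finset.card_univ,
    Fintype.card_fin, smul_eq_mul] at h3
  rw [Fintype.card_fin] at h1 h2
  have h4 : (n + 1).choose 2 * 2 = n * (n + 1) := by
    have := Nat.choose_two_right (n + 1)
    rw [this, Nat.add_sub_cancel, mul_comm (n + 1) n]
    exact Nat.div_mul_cancel (Nat.even_mul_succ_self n).two_dvd
  have h5 : n * ((n + 1) * 2 ^ d) ≤
      n * (2 * Module.finrank k (LinearMap.ker (D.mulVecLin.restrictScalars k))) := by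
    have h6 := h1.trans h2
    have h7 : n * ((n + 1) * 2 ^ d) = 2 * ((n + 1).choose 2 * 2 ^ d) := by
      rw [← mul_assoc, ← h4]
      ring
    rw [h7]
    calc 2 * ((n + 1).choose 2 * 2 ^ d) ≤ 2 * (n * Module.finrank k
          (LinearMap.ker (D.mulVecLin.restrictScalars k))) := Nat.mul_le_mul_left 2 h6
      _ = _ := by ring
  have h8 := Nat.le_of_mul_le_mul_left h5 hn
  have h9 : (n + 1) * 2 ^ d = n * 2 ^ d + 2 ^ d := by ring
  omega

end

end Pool.Agent.Lib.MP_f8ecd9_al
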