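import Mathlib

set_option autoImplicit false

namespace Pool.Agent.Lib.MP_f8ecd9_al

open Matrix

section Abstract

/-- The key intertwining identity in a ring of characteristic two. -/
theorem intertwine_abstract {A B : Type*} [CommRing A] [Ring B] [Algebra A B]
    (h2 : (2 : B) = 0) (x : A) (hx : x * x = 0) (a b t : B) (ht : t * t = 1)
    (hcomm : b * (t * a * t) = (t * a * t) * b) (hab : x • (a * b + b * a) = 0) :
    ((a + x • b) + t * (a + x • b) * t + (1 + t)) * (1 + x • (b * t)) =
      (1 + x • (b * t)) * (a + t * a * t + (1 + t)) := by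
  have h2' : ∀ z : B, z + z = 0 := by
    intro z
    have : z + z = 2 * z := (two_mul z).symm
    rw [this, h2, zero_mul]
  have e1 : t * a * t * (b * t) = b * t * a := by
    calc t * a * t * (b * t) = (t * a * t * b) * t := by noncomm_ring
      _ = (b * (t * a * t)) * t := by rw [hcomm]
      _ = b * t * a * (t * t) := by noncomm_ring
      _ = b * t * a := by rw [ht, mul_one]
  have e2 : b * t * (t * a * t) = b * a * t := by
    calc b * t * (t * a * t) = b * (t * t) * a * t := by noncomm_ring
      _ = b * a * t := by rw [ht, mul_one]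
  have e3 : b * t * t = b := by rw [mul_assoc, ht, mul_one]
  -- the difference of the first order terms
  have key : (b + t * b * t) + (a + t * a * t + (1 + t)) * (b * t) +
      (b * t) * (a + t * a * t + (1 + t)) = (a * b + b * a) * t := by
    have : (b + t * b * t) + (a + t * a * t + (1 + t)) * (b * t) +
        (b * t) * (a + t * a * t + (1 + t)) =
        (b + b * t * t) + (t * b * t + t * b * t) + (t * a * t * (b * t) + b * t * a)
          + (b * t + b * t) + (a * b * t + b * t * (t * a * t)) := by
      noncomm_ring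
    rw [this, e1, e2, e3]
    simp only [h2', zero_add]
    rw [add_mul]
  have hneg : ∀ z : B, -z = z := by
    intro z
    rw [neg_eq_iff_add_eq_zero]
    exact h2' z
  set T := a + t * a * t + (1 + t) with hT
  have l1 : ((a + x • b) + t * (a + x • b) * t + (1 + t)) = T + x • (b + t * b * t) := by
    rw [hT]
    simp only [mul_add, add_mul, mul_smul_comm, smul_mul_assoc, smul_add]
    abel
  rw [l1]
  have l2 : (T + x • (b + t * b * t)) * (1 + x • (b * t)) =
      T + x • ((b + t * b * t) + T * (b * t)) := by
    rw [mul_add, mul_one, add_mul, mul_smul_comm, smul_mul_assoc, mul_smul_comm, smul_smul, hx,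
      zero_smul, add_zero, smul_add, smul_add, smul_add]
    abel
  have l3 : (1 + x • (b * t)) * T = T + x • ((b * t) * T) := by
    rw [add_mul, one_mul, smul_mul_assoc]
  rw [l2, l3]
  have l4 : x • ((b + t * b * t) + T * (b * t) + (b * t) * T) = 0 := by
    rw [key, ← smul_mul_assoc, hab, zero_mul]
  rw [smul_add] at l4
  congr 1
  rw [← sub_eq_zero, sub_eq_add_neg, hneg]
  exact l4

theorem invol_abstract {A B : Type*} [CommRing A] [Ring B] [Algebra A B]
    (h2 : (2 : B) = 0) (x : A) (hx : x * x = 0) (s : B) :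
    (1 + x • s) * (1 + x • s) = 1 := by
  have h2' : ∀ z : B, z + z = 0 := by
    intro z
    have : z + z = 2 * z := (two_mul z).symm
    rw [this, h2, zero_mul]
  rw [mul_add, mul_one, add_mul, one_mul, smul_mul_assoc, mul_smul_comm, smul_smul, hx,
    zero_smul, add_zero, add_assoc, h2', add_zero]

end Abstract

section Matrices

variable {A : Type*} [CommRing A] {ι : Type*} [Fintype ι] [DecidableEq ι]

/-- The permutation matrix of the swap. -/
def swapMat (A : Type*) [CommRing A] (ι : Type*) [DecidableEq ι] :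
    Matrix (ι × ι) (ι × ι) A :=
  (1 : Matrix (ι × ι) (ι × ι) A).submatrix (Equiv.prodComm ι ι) id

theorem swapMat_mul (M : Matrix (ι × ι) (ι × ι) A) :
    swapMat A ι * M = M.submatrix Prod.swap id := by
  ext p q
  simp [swapMat, Matrix.mul_apply, Matrix.submatrix_apply, Matrix.one_apply]

theorem mul_swapMat (M : Matrix (ι × ι) (ι × ι) A) :
    M * swapMat A ι = M.submatrix id Prod.swap := by
  ext p q
  simp only [swapMat, Matrix.mul_apply, Matrix.submatrix_apply, Matrix.one_apply, id]
  rw [Finset.sum_eq_single (Prod.swap q)]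
  · simp
  · intro r _ hr
    have : ¬ ((Equiv.prodComm ι ι) r = q) := by
      intro h
      apply hr
      rw [← h]
      simp
    rw [if_neg this, mul_zero]
  · intro h
    exact absurd (Finset.mem_univ _) h

theorem swapMat_mul_self : swapMat A ι * swapMat A ι = 1 := by
  rw [swapMat_mul]
  ext p q
  show (1 : Matrix (ι × ι) (ι × ι) A) (Prod.swap (Prod.swap p)) q = _
  rw [Prod.swap_swap]

theorem swap_kron_swap (D : Matrix ι ι A) :
    swapMat A ι * Matrix.kronecker D (1 : Matrix ι ι A) * swapMat A ι =
      Matrix.kronecker (1 : Matrix ι ι A) D := by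
  rw [swapMat_mul, mul_swapMat]
  ext p q
  show D p.2 q.2 * (1 : Matrix ι ι A) p.1 q.1 = (1 : Matrix ι ι A) p.1 q.1 * D p.2 q.2
  exact mul_comm _ _

/-- The differential of the tensor square. -/
def bd (D : Matrix ι ι A) : Matrix (ι × ι) (ι × ι) A :=
  Matrix.kronecker D (1 : Matrix ι ι A) + Matrix.kronecker (1 : Matrix ι ι A) D

/-- The perturbed differential of the tensor square. -/
def tate (D : Matrix ι ι A) : Matrix (ι × ι) (ι × ι) A :=
  bd D + (1 + swapMat A ι)

theorem tate_eq (D : Matrix ι ι A) :
    tate D = Matrix.kronecker D (1 : Matrix ι ι A) +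
      swapMat A ι * Matrix.kronecker D (1 : Matrix ι ι A) * swapMat A ι +
        (1 + swapMat A ι) := by
  rw [tate, bd, swap_kron_swap]

theorem tate_intertwine (h2 : (2 : A) = 0) (x : A) (hx : x * x = 0) (D₀ D₁ : Matrix ι ι A)
    (h0 : D₀ * D₀ = 0) (h1 : (D₀ + x • D₁) * (D₀ + x • D₁) = 0) :
    tate (D₀ + x • D₁) *
        (1 + x • (Matrix.kronecker D₁ (1 : Matrix ι ι A) * swapMat A ι)) =
      (1 + x • (Matrix.kronecker D₁ (1 : Matrix ι ι A) * swapMat A ι)) * tate D₀ := by
  have h2B : (2 : Matrix (ι × ι) (ι × ι) A) = 0 := by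
    have : (2 : Matrix (ι × ι) (ι × ι) A) = Matrix.diagonal (fun _ => (2 : A)) := by
      ext i j
      by_cases h : i = j
      · subst h
        simp [Matrix.ofNat_apply]
      · simp [Matrix.ofNat_apply, h]
    rw [this, h2]
    simp
  have hab : x • (D₀ * D₁ + D₁ * D₀) = 0 := by
    have e : (D₀ + x • D₁) * (D₀ + x • D₁) =
        D₀ * D₀ + x • (D₀ * D₁ + D₁ * D₀) + (x * x) • (D₁ * D₁) := by
      rw [mul_add, add_mul, add_mul, mul_smul_comm, mul_smul_comm, smul_mul_assoc,
        smul_mul_assoc, smul_smul, smul_add]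
      abel
    rw [h1, h0, hx, zero_smul, zero_add, add_zero] at e
    exact e.symm
  have hk : Matrix.kronecker (D₀ + x • D₁) (1 : Matrix ι ι A) =
      Matrix.kronecker D₀ (1 : Matrix ι ι A) + x • Matrix.kronecker D₁ (1 : Matrix ι ι A) := by
    ext p q
    simp [Matrix.kroneckerMap_apply, add_mul, mul_assoc]
  rw [tate_eq, tate_eq, hk]
  apply intertwine_abstract h2B x hx _ _ _ swapMat_mul_self
  · rw [swap_kron_swap]
    unfold Matrix.kronecker
    rw [← Matrix.mul_kronecker_mul, ← Matrix.mul_kronecker_mul]
    simp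
  · unfold Matrix.kronecker
    rw [← Matrix.mul_kronecker_mul, ← Matrix.mul_kronecker_mul, mul_one,
      ← Matrix.add_kronecker, ← Matrix.smul_kronecker, hab, Matrix.zero_kronecker]

end Matrices

section Kernels

variable {k A : Type*} [Field k] [CommRing A] [Algebra k A] [Module.Finite k A]

theorem finrank_ker_le_of_intertwine {J : Type*} [Fintype J] [DecidableEq J]
    (T T₀ N : Matrix J J A) (h : T * N = N * T₀) (hN : N * N = 1) :
    Module.finrank k (LinearMap.ker (T₀.mulVecLin.restrictScalars k)) ≤
      Module.finrank k (LinearMap.ker (T.mulVecLin.restrictScalars k)) := by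
  have hmap : ∀ v : LinearMap.ker (T₀.mulVecLin.restrictScalars k),
      (N.mulVecLin.restrictScalars k) (v : J → A) ∈
        LinearMap.ker (T.mulVecLin.restrictScalars k) := by
    rintro ⟨v, hv⟩
    rw [LinearMap.mem_ker] at hv ⊢
    simp only [LinearMap.restrictScalars_apply, Matrix.mulVecLin_apply] at hv ⊢
    rw [Matrix.mulVec_mulVec, h, ← Matrix.mulVec_mulVec, hv, Matrix.mulVec_zero]
  let ψ : LinearMap.ker (T₀.mulVecLin.restrictScalars k) →ₗ[k]
      LinearMap.ker (T.mulVecLin.restrictScalars k) :=
    LinearMap.codRestrict _ ((N.mulVecLin.restrictScalars k) ∘ₗ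
      (LinearMap.ker (T₀.mulVecLin.restrictScalars k)).subtype) hmap
  refine LinearMap.finrank_le_finrank_of_injective (f := ψ) ?_
  rintro ⟨v, hv⟩ ⟨w, hw⟩ hvw
  have h1 : N.mulVec v = N.mulVec w := congrArg Subtype.val hvw
  have h2 : N.mulVec (N.mulVec v) = N.mulVec (N.mulVec w) := by rw [h1]
  rw [Matrix.mulVec_mulVec, Matrix.mulVec_mulVec, hN, Matrix.one_mulVec, Matrix.one_mulVec] at h2
  exact Subtype.ext h2

variable {ι : Type*} [Fintype ι] [DecidableEq ι]

theorem finrank_ker_tate_step (h2 : (2 : A) = 0) (x : A) (hx : x * x = 0) (D₀ D₁ : Matrix ι ι A)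
    (h0 : D₀ * D₀ = 0) (h1 : (D₀ + x • D₁) * (D₀ + x • D₁) = 0) :
    Module.finrank k (LinearMap.ker ((tate D₀).mulVecLin.restrictScalars k)) ≤
      Module.finrank k (LinearMap.ker ((tate (D₀ + x • D₁)).mulVecLin.restrictScalars k)) := by
  have h2B : (2 : Matrix (ι × ι) (ι × ι) A) = 0 := by
    have : (2 : Matrix (ι × ι) (ι × ι) A) = Matrix.diagonal (fun _ => (2 : A)) := by
      ext i j
      by_cases h : i = j
      · subst h
        simp [Matrix.ofNat_apply]
      · simp [Matrix.ofNat_apply, h]
    rw [this, h2]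
    simp
  exact finrank_ker_le_of_intertwine _ _ _ (tate_intertwine h2 x hx D₀ D₁ h0 h1)
    (invol_abstract h2B x hx _)

/-- Killing the variables one by one does not increase the kernel. -/
theorem finrank_ker_tate_chain (h2 : (2 : A) = 0) {σ : Type*} [DecidableEq σ]
    (x : σ → A) (hx : ∀ i, x i * x i = 0) (ε : Finset σ → A →ₐ[k] A)
    (hε0 : ∀ a, ε ∅ a = a)
    (hstep : ∀ s j, j ∉ s → ∀ a, ∃ b, ε s a = ε (insert j s) a + x j * b)
    (D : Matrix ι ι A) (hD : D * D = 0) (s : Finset σ) :
    Module.finrank k (LinearMap.ker ((tate (D.map (ε s))).mulVecLin.restrictScalars k)) ≤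
      Module.finrank k (LinearMap.ker ((tate D).mulVecLin.restrictScalars k)) := by
  have hsq : ∀ s : Finset σ, D.map (ε s) * D.map (ε s) = 0 := by
    intro s
    have := Matrix.map_mul (L := D) (M := D) (f := (ε s : A →+* A))
    rw [hD] at this
    have h0 : (0 : Matrix ι ι A).map (ε s : A →+* A) = 0 := by
      ext i j
      simp
    rw [h0] at this
    exact this.symm
  induction s using Finset.induction_on with
  | empty =>
    have : D.map (ε ∅) = D := by
      ext i j
      simp [hε0]
    rw [this]
  | insert j s hj ih =>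
    refine le_trans ?_ ih
    choose b hb using hstep s j hj
    have e : D.map (ε s) = D.map (ε (insert j s)) + x j • (D.map b) := by
      ext p q
      simp [hb (D p q)]
    have hs := hsq s
    rw [e] at hs ⊢
    exact finrank_ker_tate_step h2 (x j) (hx j) _ _ (hsq (insert j s)) hs

/-- The kernel of `1 + swap` is large. -/
theorem finrank_ker_tate_zero (h2 : (2 : A) = 0) :
    (Fintype.card ι + 1).choose 2 * Module.finrank k A ≤
      Module.finrank k (LinearMap.ker ((tate (0 : Matrix ι ι A)).mulVecLin.restrictScalars k)) := by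
  have h2' : ∀ z : A, z + z = 0 := by
    intro z
    rw [← two_mul, h2, zero_mul]
  let φ : (Sym2 ι → A) →ₗ[k] (ι × ι → A) :=
    { toFun := fun f p => f (Sym2.mk p.1 p.2)
      map_add' := by intro f g; rfl
      map_smul' := by intro c f; rfl }
  have hφ : ∀ f, φ f ∈ LinearMap.ker ((tate (0 : Matrix ι ι A)).mulVecLin.restrictScalars k) := by
    intro f
    rw [LinearMap.mem_ker]
    simp only [LinearMap.restrictScalars_apply, Matrix.mulVecLin_apply]
    have hb : bd (0 : Matrix ι ι A) = 0 := by
      unfold bd Matrix.kronecker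
      simp
    rw [tate, hb, zero_add, Matrix.add_mulVec, Matrix.one_mulVec]
    funext p
    have hsw : (swapMat A ι).mulVec (φ f) p = φ f (Prod.swap p) := by
      simp [swapMat, Matrix.mulVec, dotProduct, Matrix.one_apply]
    have : φ f (Prod.swap p) = φ f p := by
      show f (Sym2.mk p.2 p.1) = f (Sym2.mk p.1 p.2)
      rw [Sym2.eq_swap]
    rw [Pi.add_apply, hsw, this, Pi.zero_apply]
    exact h2' _
  let ψ := LinearMap.codRestrict _ φ hφ
  have hinj : Function.Injective ψ := by
    intro f g hfg
    have h1 : φ f = φ g := congrArg Subtype.val hfg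
    funext z
    induction z using Sym2.ind with
    | _ a b => exact congrFun h1 (a, b)
  have := LinearMap.finrank_le_finrank_of_injective (f := ψ) hinj
  rw [Module.finrank_pi_fintype] at this
  simpa [Sym2.card] using this

end Kernels

end Pool.Agent.Lib.MP_f8ecd9_al
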