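import Mathlib

set_option autoImplicit false

namespace Pool.Agent.Lib.MP_f8ecd9_al

open MvPolynomial

section

variable (k : Type*) [Field k] (d : ℕ)

/-- The ideal generated by the squares of the variables. -/
noncomputable def sqIdeal : Ideal (MvPolynomial (Fin d) k) :=
  Ideal.span (Set.range (fun i : Fin d => (X i : MvPolynomial (Fin d) k) ^ 2))

/-- The exponent vector of a squarefree monomial. -/
noncomputable def sqfree (s : Finset (Fin d)) : Fin d →₀ ℕ :=
  ∑ i ∈ s, Finsupp.single i 1

theorem sqfree_apply (s : Finset (Fin d)) (i : Fin d) :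
    sqfree d s i = if i ∈ s then 1 else 0 := by
  simp [sqfree, Finsupp.finsetSum_apply, Finsupp.single_apply]

theorem mem_sqIdeal_iff (p : MvPolynomial (Fin d) k) :
    p ∈ sqIdeal k d ↔ ∀ s : Finset (Fin d), coeff (sqfree d s) p = 0 := by
  have h1 : sqIdeal k d = Ideal.span ((fun s => monomial s (1 : k)) ''
      (Set.range (fun i : Fin d => Finsupp.single i 2))) := by
    unfold sqIdeal
    congr 1
    ext q
    simp [X_pow_eq_monomial]
  rw [h1, mem_ideal_span_monomial_image]
  constructor
  · intro h s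
    by_contra hne
    obtain ⟨m, ⟨i, rfl⟩, hle⟩ := h (sqfree d s) (by simpa [mem_support_iff] using hne)
    have := hle i
    simp only [Finsupp.single_eq_same, sqfree_apply] at this
    split_ifs at this <;> omega
  · intro h m hm
    by_contra hcon
    push Not at hcon
    have hle : ∀ i, m i ≤ 1 := by
      intro i
      by_contra hi
      apply hcon (Finsupp.single i 2) ⟨i, rfl⟩
      rw [Finsupp.single_le_iff]
      omega
    have : m = sqfree d (Finset.univ.filter (fun i => m i = 1)) := by
      ext i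
      rw [sqfree_apply]
      have := hle i
      by_cases hi : m i = 1
      · simp [hi]
      · simp [hi]
        omega
    rw [mem_support_iff] at hm
    apply hm
    rw [this]
    exact h _

/-- Squarefree coefficients. -/
noncomputable def sqCoeff : MvPolynomial (Fin d) k →ₗ[k] (Finset (Fin d) → k) :=
  LinearMap.pi (fun s => lcoeff k (sqfree d s))

theorem sqfree_injective : Function.Injective (sqfree d) := by
  intro s t h
  ext i
  have := DFunLike.congr_fun h i
  rw [sqfree_apply, sqfree_apply] at this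
  by_cases h1 : i ∈ s <;> by_cases h2 : i ∈ t <;> simp_all

theorem sqCoeff_surjective : Function.Surjective (sqCoeff k d) := by
  classical
  intro f
  refine ⟨∑ s, monomial (sqfree d s) (f s), ?_⟩
  funext t
  simp only [sqCoeff, LinearMap.pi_apply, lcoeff_apply, coeff_sum, coeff_monomial]
  rw [Finset.sum_eq_single t]
  · simp
  · intro s _ hs
    rw [if_neg]
    intro h
    exact hs (sqfree_injective d h)
  · intro h
    exact absurd (Finset.mem_univ _) h

theorem ker_sqCoeff : LinearMap.ker (sqCoeff k d) = (sqIdeal k d).restrictScalars k := by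
  ext p
  rw [LinearMap.mem_ker, Submodule.restrictScalars_mem, mem_sqIdeal_iff]
  constructor
  · intro h s
    exact congrFun h s
  · intro h
    funext s
    exact h s

/-- The quotient as a vector space. -/
noncomputable def quotEquiv :
    (MvPolynomial (Fin d) k ⧸ sqIdeal k d) ≃ₗ[k] (Finset (Fin d) → k) :=
  (Submodule.Quotient.restrictScalarsEquiv k (sqIdeal k d)).symm ≪≫ₗ
    (Submodule.quotEquivOfEq _ _ (ker_sqCoeff k d).symm) ≪≫ₗ
      (LinearMap.quotKerEquivOfSurjective _ (sqCoeff_surjective k d))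

theorem finite_quot : Module.Finite k (MvPolynomial (Fin d) k ⧸ sqIdeal k d) :=
  Module.Finite.equiv (quotEquiv k d).symm

theorem finrank_quot :
    Module.finrank k (MvPolynomial (Fin d) k ⧸ sqIdeal k d) = 2 ^ d := by
  rw [(quotEquiv k d).finrank_eq, Module.finrank_fintype_fun_eq_card]
  simp

theorem exists_lift {B : Type*} [CommRing B] [Algebra k B] (y : Fin d → B)
    (hy : ∀ i, y i ^ 2 = 0) :
    ∃ f : (MvPolynomial (Fin d) k ⧸ sqIdeal k d) →ₐ[k] B,
      ∀ i, f (Ideal.Quotient.mk (sqIdeal k d) (X i)) = y i := by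
  have hI : ∀ a : MvPolynomial (Fin d) k, a ∈ sqIdeal k d → MvPolynomial.aeval y a = 0 := by
    intro a ha
    have hle : sqIdeal k d ≤ RingHom.ker (MvPolynomial.aeval (R := k) y) := by
      unfold sqIdeal
      rw [Ideal.span_le]
      rintro _ ⟨i, rfl⟩
      rw [SetLike.mem_coe, RingHom.mem_ker, map_pow, aeval_X]
      exact hy i
    exact hle ha
  refine ⟨Ideal.Quotient.liftₐ (sqIdeal k d) (MvPolynomial.aeval y) hI, ?_⟩
  intro i
  have := DFunLike.congr_fun (Ideal.Quotient.liftₐ_comp (sqIdeal k d) (MvPolynomial.aeval y) hI)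
    (X i)
  rw [aeval_X] at this
  exact this

theorem mk_X_sq (i : Fin d) :
    (Ideal.Quotient.mk (sqIdeal k d) (X i)) ^ 2 = 0 := by
  rw [← map_pow, Ideal.Quotient.eq_zero_iff_mem]
  exact Ideal.subset_span ⟨i, rfl⟩

theorem exists_kill (s : Finset (Fin d)) :
    ∃ f : (MvPolynomial (Fin d) k ⧸ sqIdeal k d) →ₐ[k] (MvPolynomial (Fin d) k ⧸ sqIdeal k d),
      ∀ i, f (Ideal.Quotient.mk (sqIdeal k d) (X i)) =
        if i ∈ s then 0 else Ideal.Quotient.mk (sqIdeal k d) (X i) := by
  apply exists_lift
  intro i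
  split_ifs
  · simp
  · exact mk_X_sq k d i

/-- The endomorphism killing the variables in `s`. -/
noncomputable def kill (s : Finset (Fin d)) :
    (MvPolynomial (Fin d) k ⧸ sqIdeal k d) →ₐ[k] (MvPolynomial (Fin d) k ⧸ sqIdeal k d) :=
  (exists_kill k d s).choose

theorem kill_X (s : Finset (Fin d)) (i : Fin d) :
    kill k d s (Ideal.Quotient.mk (sqIdeal k d) (X i)) =
      if i ∈ s then 0 else Ideal.Quotient.mk (sqIdeal k d) (X i) :=
  (exists_kill k d s).choose_spec i

theorem algHom_ext' {B : Type*} [CommRing B] [Algebra k B]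
    (f g : (MvPolynomial (Fin d) k ⧸ sqIdeal k d) →ₐ[k] B)
    (h : ∀ i, f (Ideal.Quotient.mk (sqIdeal k d) (X i)) =
      g (Ideal.Quotient.mk (sqIdeal k d) (X i))) : f = g := by
  apply Ideal.Quotient.algHom_ext
  apply MvPolynomial.algHom_ext
  intro i
  exact h i

theorem kill_empty (a : MvPolynomial (Fin d) k ⧸ sqIdeal k d) : kill k d ∅ a = a := by
  have : kill k d ∅ = AlgHom.id k _ := by
    apply algHom_ext'
    intro i
    rw [kill_X]
    simp
  rw [this]
  rfl

theorem kill_step (s : Finset (Fin d)) (j : Fin d) (a : MvPolynomial (Fin d) k ⧸ sqIdeal k d) :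
    ∃ b, kill k d s a = kill k d (insert j s) a + Ideal.Quotient.mk (sqIdeal k d) (X j) * b := by
  obtain ⟨p, rfl⟩ := Ideal.Quotient.mk_surjective a
  induction p using MvPolynomial.induction_on with
  | C c =>
    refine ⟨0, ?_⟩
    have h : ∀ s, kill k d s (Ideal.Quotient.mk (sqIdeal k d) (C c)) =
        Ideal.Quotient.mk (sqIdeal k d) (C c) := by
      intro s
      have : Ideal.Quotient.mk (sqIdeal k d) (C c) = algebraMap k _ c := rfl
      rw [this, AlgHom.commutes]
    rw [h, h, mul_zero, add_zero]
  | add p q hp hq =>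
    obtain ⟨b, hb⟩ := hp
    obtain ⟨c, hc⟩ := hq
    refine ⟨b + c, ?_⟩
    rw [map_add, map_add, map_add, hb, hc]
    ring
  | mul_X p i hp =>
    obtain ⟨b, hb⟩ := hp
    rw [map_mul, map_mul, map_mul, kill_X, kill_X]
    by_cases hij : i = j
    · subst hij
      rw [if_pos (Finset.mem_insert_self i s)]
      by_cases his : i ∈ s
      · exact ⟨0, by rw [if_pos his]; ring⟩
      · exact ⟨kill k d s (Ideal.Quotient.mk (sqIdeal k d) p), by rw [if_neg his]; ring⟩
    · by_cases his : i ∈ s
      · have h1 : i ∈ insert j s := Finset.mem_insert_of_mem his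
        exact ⟨0, by rw [if_pos his, if_pos h1]; ring⟩
      · have h1 : i ∉ insert j s := by
          simp [Finset.mem_insert, hij, his]
        rw [if_neg his, if_neg h1, hb]
        exact ⟨b * Ideal.Quotient.mk (sqIdeal k d) (X i), by ring⟩

theorem kill_univ_of_nilpotent (a : MvPolynomial (Fin d) k ⧸ sqIdeal k d) (ha : IsNilpotent a) :
    kill k d Finset.univ a = 0 := by
  obtain ⟨aug, haug⟩ := exists_lift k d (B := k) (fun _ => 0) (by intro i; simp)
  have h : kill k d Finset.univ = (Algebra.ofId k _).comp aug := by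
    apply algHom_ext'
    intro i
    rw [kill_X, AlgHom.comp_apply, haug, map_zero]
    simp
  rw [h, AlgHom.comp_apply]
  have : aug a = 0 := by
    have := ha.map aug
    exact this.eq_zero
  rw [this, map_zero]

theorem mk_X_mul_self (i : Fin d) :
    Ideal.Quotient.mk (sqIdeal k d) (X i) * Ideal.Quotient.mk (sqIdeal k d) (X i) = 0 := by
  rw [← map_mul, ← pow_two, Ideal.Quotient.eq_zero_iff_mem]
  exact Ideal.subset_span ⟨i, rfl⟩

end

end Pool.Agent.Lib.MP_f8ecd9_al
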