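import Pool.Agent.Lib.MP_f8ecd9_al.Graded
import Pool.Agent.Lib.MP_f8ecd9_al.Conj
import Pool.Agent.Lib.MP_f8ecd9_al.Trunc

set_option autoImplicit false

namespace Pool.Agent.Lib.MP_f8ecd9_al

open MvPolynomial

section

variable {k : Type*} [Field k] [CharP k 2] {d : ℕ}

theorem two_eq_zero : (2 : MvPolynomial (Fin d) k ⧸ sqIdeal k d) = 0 := by
  have h : (2 : k) = 0 := by
    have := CharP.cast_eq_zero k 2
    simpa using this
  have : (2 : MvPolynomial (Fin d) k ⧸ sqIdeal k d) = algebraMap k _ 2 :=
    (map_ofNat (algebraMap k (MvPolynomial (Fin d) k ⧸ sqIdeal k d)) 2).symm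
  rw [this, h, map_zero]

/-- Lower bound for the kernel of the perturbed differential. -/
theorem finrank_ker_tate_ge {ι : Type*} [Fintype ι] [DecidableEq ι]
    (D : Matrix ι ι (MvPolynomial (Fin d) k ⧸ sqIdeal k d)) (hD : D * D = 0)
    (hnil : ∀ i j, IsNilpotent (D i j)) :
    (Fintype.card ι + 1).choose 2 * 2 ^ d ≤
      Module.finrank k (LinearMap.ker ((tate D).mulVecLin.restrictScalars k)) := by
  have := finite_quot k d
  have h1 := finrank_ker_tate_chain (k := k) two_eq_zero
    (fun i : Fin d => Ideal.Quotient.mk (sqIdeal k d) (X i)) (mk_X_mul_self k d) (kill k d)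
    (kill_empty k d) (fun s j _ a => kill_step k d s j a) D hD Finset.univ
  have h2 : D.map (kill k d Finset.univ) = 0 := by
    ext i j
    simp [kill_univ_of_nilpotent k d _ (hnil i j)]
  rw [h2] at h1
  have h3 := finrank_ker_tate_zero (k := k) (A := MvPolynomial (Fin d) k ⧸ sqIdeal k d) (ι := ι)
    two_eq_zero
  rw [finrank_quot] at h3
  exact h3.trans h1

omit [CharP k 2] in
/-- The graded comparison. -/
theorem finrank_ker_bd_ge_tate {ι : Type*} [Fintype ι] [DecidableEq ι]
    (D : Matrix ι ι (MvPolynomial (Fin d) k ⧸ sqIdeal k d))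
    (deg : ι → ℕ) (hdeg : ∀ i j, D i j ≠ 0 → deg j = deg i + 1) :
    Module.finrank k (LinearMap.ker ((tate D).mulVecLin.restrictScalars k)) ≤
      Module.finrank k (LinearMap.ker ((bd D).mulVecLin.restrictScalars k)) := by
  have := finite_quot k d
  have e : (tate D).mulVecLin.restrictScalars k =
      (bd D).mulVecLin.restrictScalars k +
        ((1 + swapMat (MvPolynomial (Fin d) k ⧸ sqIdeal k d) ι).mulVecLin.restrictScalars k) := by
    apply LinearMap.ext
    intro v
    simp only [LinearMap.restrictScalars_apply, LinearMap.add_apply, Matrix.mulVecLin_apply, tate]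
    rw [Matrix.add_mulVec]
  rw [e]
  apply finrank_ker_add_le (fun p : ι × ι => deg p.1 + deg p.2)
  · intro y p hy
    simp only [LinearMap.restrictScalars_apply, Matrix.mulVecLin_apply, Matrix.mulVec, dotProduct]
    apply Finset.sum_eq_zero
    intro q _
    by_cases hq : deg q.1 + deg q.2 = deg p.1 + deg p.2 + 1
    · rw [hy q hq, mul_zero]
    · have : bd D p q = 0 := by
        simp only [bd, Matrix.add_apply, Matrix.kronecker, Matrix.kroneckerMap_apply]
        have h1 : D p.1 q.1 * (1 : Matrix ι ι (MvPolynomial (Fin d) k ⧸ sqIdeal k d)) p.2 q.2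
            = 0 := by
          by_cases h : p.2 = q.2
          · by_cases h' : D p.1 q.1 = 0
            · rw [h', zero_mul]
            · exfalso
              apply hq
              rw [hdeg _ _ h', h]
              ring
          · rw [Matrix.one_apply_ne h, mul_zero]
        have h2 : (1 : Matrix ι ι (MvPolynomial (Fin d) k ⧸ sqIdeal k d)) p.1 q.1 * D p.2 q.2
            = 0 := by
          by_cases h : p.1 = q.1
          · by_cases h' : D p.2 q.2 = 0
            · rw [h', mul_zero]
            · exfalso
              apply hq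
              rw [hdeg _ _ h', h]
              ring
          · rw [Matrix.one_apply_ne h, zero_mul]
        rw [h1, h2, add_zero]
      rw [this, zero_mul]
  · intro y p hy
    simp only [LinearMap.restrictScalars_apply, Matrix.mulVecLin_apply]
    rw [Matrix.add_mulVec, Matrix.one_mulVec, Pi.add_apply]
    have h1 : y p = 0 := hy p rfl
    have h2 : y p.swap = 0 := hy p.swap (by simp [add_comm])
    have h3 : (swapMat (MvPolynomial (Fin d) k ⧸ sqIdeal k d) ι).mulVec y p = y p.swap := by
      simp [swapMat, Matrix.mulVec, dotProduct, Matrix.one_apply]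
    rw [h3, h1, h2, add_zero]

/-- Main inequality. -/
theorem main {n : ℕ} (D : Matrix (Fin n) (Fin n) (MvPolynomial (Fin d) k ⧸ sqIdeal k d))
    (hD : D * D = 0) (hdeg : ∃ deg : Fin n → ℕ, ∀ i j, D i j ≠ 0 → deg j = deg i + 1)
    (hnil : ∀ i j, IsNilpotent (D i j)) :
    2 ^ d * n + Module.finrank k (LinearMap.range ((bd D).mulVecLin.restrictScalars k)) ≤
      Module.finrank k (LinearMap.ker ((bd D).mulVecLin.restrictScalars k)) := by
  have := finite_quot k d
  obtain ⟨deg, hdeg⟩ := hdeg
  have h1 := (finrank_ker_tate_ge D hD hnil).trans (finrank_ker_bd_ge_tate D deg hdeg)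
  have h2 := LinearMap.finrank_range_add_finrank_ker ((bd D).mulVecLin.restrictScalars k)
  rw [Module.finrank_pi_fintype] at h2
  simp only [finrank_quot, Finset.sum_const, Finset.card_univ, Fintype.card_prod,
    Fintype.card_fin, smul_eq_mul] at h2
  rw [Fintype.card_fin] at h1
  have h3 : (n + 1).choose 2 * 2 = n * (n + 1) := by
    have := Nat.choose_two_right (n + 1)
    rw [this, Nat.add_sub_cancel, mul_comm (n + 1) n]
    exact Nat.div_mul_cancel (Nat.even_mul_succ_self n).two_dvd
  have h4 : n * (n + 1) * 2 ^ d = 2 * ((n + 1).choose 2 * 2 ^ d) := by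
    rw [← h3]
    ring
  nlinarith [h1, h2, h4]

end

end Pool.Agent.Lib.MP_f8ecd9_al
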